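import Pool.Agent.BOX.StmtsG

/-!
# Squad BOX, row ENU (helper44): upper bound of the energy
-/

set_option autoImplicit false

namespace Pool.Agent.BOX.H44

open Set Filter Topology MeasureTheory
open Pool.Agent.BOX

noncomputable section

variable {N : ℕ}

theorem one_le_w2 (k : Fin N → ℤ) : 1 ≤ w2 k := by
  unfold w2
  have h : 0 ≤ ∑ i, |(k i : ℝ)| := Finset.sum_nonneg fun i _ => abs_nonneg _
  nlinarith

theorem box_vol (l : Fin N → ℝ) : volume (Box l) < ⊤ := by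
  refine lt_of_le_of_lt (measure_mono ?_) (isCompact_Icc (a := (0 : Fin N → ℝ)) (b := l)).measure_lt_top
  intro x hx
  exact ⟨fun i => (hx i).1.le, fun i => (hx i).2.le⟩

theorem prod_sin (s : Finset (Fin N)) (y : Fin N → ℝ) : |∏ i ∈ s, Real.sin (y i)| ≤ 1 := by
  rw [Finset.abs_prod]
  exact Finset.prod_le_one (fun i _ => abs_nonneg _) fun i _ => Real.abs_sin_le_one _

theorem sn_le {l : Fin N → ℝ} {c : (Fin N → ℤ) → ℝ} (hc : ∀ k, |c k| ≤ 1) (k : Fin N → ℤ)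
    (x : Fin N → ℝ) : |Sn l c k x| ≤ 1 := by
  unfold Sn
  rw [abs_mul]
  exact mul_le_one₀ (hc k) (abs_nonneg _) (prod_sin _ fun i => Real.pi * k i / l i * x i)

theorem sd_le {l : Fin N → ℝ} {c : (Fin N → ℤ) → ℝ} (hc : ∀ k, |c k| ≤ 1) (i : Fin N)
    (k : Fin N → ℤ) (x : Fin N → ℝ) : |Sd l c i k x| ≤ |Real.pi * k i / l i| := by
  unfold Sd
  have h1 := prod_sin (Finset.univ.erase i) fun j => Real.pi * k j / l j * x j
  have h2 := Real.abs_cos_le_one (Real.pi * k i / l i * x i)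
  have h3 := hc k
  rw [abs_mul, abs_mul, abs_mul]
  have h4 : |Real.cos (Real.pi * k i / l i * x i)| *
      |∏ j ∈ Finset.univ.erase i, Real.sin (Real.pi * k j / l j * x j)| ≤ 1 :=
    mul_le_one₀ h2 (abs_nonneg _) h1
  have h5 : |c k| * (|Real.cos (Real.pi * k i / l i * x i)| *
      |∏ j ∈ Finset.univ.erase i, Real.sin (Real.pi * k j / l j * x j)|) ≤ 1 :=
    mul_le_one₀ h3 (mul_nonneg (abs_nonneg _) (abs_nonneg _)) h4
  calc |c k| * (|Real.pi * k i / l i| * |Real.cos (Real.pi * k i / l i * x i)| *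
        |∏ j ∈ Finset.univ.erase i, Real.sin (Real.pi * k j / l j * x j)|)
      = |Real.pi * k i / l i| * (|c k| * (|Real.cos (Real.pi * k i / l i * x i)| *
        |∏ j ∈ Finset.univ.erase i, Real.sin (Real.pi * k j / l j * x j)|)) := by ring
    _ ≤ |Real.pi * k i / l i| * 1 := mul_le_mul_of_nonneg_left h5 (abs_nonneg _)
    _ = |Real.pi * k i / l i| := mul_one _

theorem le_frq (l : Fin N → ℝ) (k : Fin N → ℤ) (i : Fin N) : |Real.pi * k i / l i| ≤ frq l k := by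
  unfold frq
  rw [← Real.sqrt_sq_eq_abs]
  apply Real.sqrt_le_sqrt
  exact Finset.single_le_sum (f := fun j => (Real.pi * k j / l j) ^ 2) (fun j _ => sq_nonneg _)
    (Finset.mem_univ i)

theorem dsp_sd {l : Fin N → ℝ} {c : (Fin N → ℤ) → ℝ} (hc : ∀ k, |c k| ≤ 1) (i : Fin N)
    (k : Fin N → ℤ) (x : Fin N → ℝ) (z : (Fin N → ℤ) → ℝ → ℂ) (t : ℝ) :
    |dsp l z k t * Sd l c i k x| ≤ ‖z k t‖ := by
  unfold dsp
  have h1 := sd_le (l := l) hc i k x
  have h2 := le_frq l k i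
  have h3 : 0 ≤ frq l k := Real.sqrt_nonneg _
  have h4 := Complex.abs_im_le_norm (z k t)
  rw [abs_mul, abs_div, abs_of_nonneg h3]
  rcases h3.eq_or_lt with h | h
  · rw [← h, div_zero, zero_mul]
    exact norm_nonneg _
  · rw [div_mul_eq_mul_div, div_le_iff₀ h]
    exact mul_le_mul h4 (h1.trans h2) (abs_nonneg _) (norm_nonneg _)

theorem enu : EnuStmt := by
  intro N l c T z d hS
  have hd0 : ∀ k, 0 ≤ d k := by
    intro k
    have h1 := hS.bd k (T + 1) (by linarith)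
    have hT := hS.hT
    have h2 : 0 < (T + 1) ^ (-(1 / 2) : ℝ) := Real.rpow_pos_of_pos (by linarith) _
    by_contra hneg
    have h3 : d k * (T + 1) ^ (-(1 / 2) : ℝ) < 0 := mul_neg_of_neg_of_pos (not_le.1 hneg) h2
    linarith [norm_nonneg (z k (T + 1))]
  have hsum : Summable d := by
    refine Summable.of_nonneg_of_le hd0 (fun k => ?_) hS.hd
    exact le_mul_of_one_le_right (hd0 k) (one_le_w2 k)
  refine ⟨((N : ℝ) + 1) * (∑' k, d k) ^ 2 * volume.real (Box l), ?_⟩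
  intro t ht
  have ht0 : 0 < t := by linarith [hS.hT]
  have hr : 0 < t ^ (-(1 / 2) : ℝ) := Real.rpow_pos_of_pos ht0 _
  have hr2 : (t ^ (-(1 / 2) : ℝ)) ^ 2 = t ^ (-1 : ℝ) := by
    rw [← Real.rpow_natCast, ← Real.rpow_mul ht0.le]
    norm_num
  have hS0 : 0 ≤ ∑' k, d k := tsum_nonneg hd0
  have hhs : HasSum (fun k => d k * t ^ (-(1 / 2) : ℝ)) ((∑' k, d k) * t ^ (-(1 / 2) : ℝ)) :=
    hsum.hasSum.mul_right _
  have b1 : ∀ x, |∑' k, (z k t).re * Sn l c k x| ≤ (∑' k, d k) * t ^ (-(1 / 2) : ℝ) := by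
    intro x
    rw [← Real.norm_eq_abs]
    refine tsum_of_norm_bounded hhs fun k => ?_
    rw [Real.norm_eq_abs, abs_mul]
    calc |(z k t).re| * |Sn l c k x| ≤ ‖z k t‖ * 1 :=
          mul_le_mul (Complex.abs_re_le_norm _) (sn_le hS.hc k x) (abs_nonneg _) (norm_nonneg _)
      _ = ‖z k t‖ := mul_one _
      _ ≤ d k * t ^ (-(1 / 2) : ℝ) := hS.bd k t ht
  have b2 : ∀ x i, |∑' k, dsp l z k t * Sd l c i k x| ≤ (∑' k, d k) * t ^ (-(1 / 2) : ℝ) := by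
    intro x i
    rw [← Real.norm_eq_abs]
    refine tsum_of_norm_bounded hhs fun k => ?_
    rw [Real.norm_eq_abs]
    exact (dsp_sd hS.hc i k x z t).trans (hS.bd k t ht)
  have sqb : ∀ y : ℝ, |y| ≤ (∑' k, d k) * t ^ (-(1 / 2) : ℝ) →
      y ^ 2 ≤ (∑' k, d k) ^ 2 * t ^ (-1 : ℝ) := by
    intro y hy
    rw [← hr2, ← mul_pow, ← sq_abs y]
    exact pow_le_pow_left₀ (abs_nonneg _) hy 2
  have b3 : ∀ x, ‖(∑' k, (z k t).re * Sn l c k x) ^ 2 +
      ∑ i, (∑' k, dsp l z k t * Sd l c i k x) ^ 2‖ ≤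
      ((N : ℝ) + 1) * (∑' k, d k) ^ 2 * t ^ (-1 : ℝ) := by
    intro x
    have h0 : 0 ≤ (∑' k, (z k t).re * Sn l c k x) ^ 2 +
      ∑ i, (∑' k, dsp l z k t * Sd l c i k x) ^ 2 :=
      add_nonneg (sq_nonneg _) (Finset.sum_nonneg fun i _ => sq_nonneg _)
    rw [Real.norm_of_nonneg h0]
    have h1 := sqb _ (b1 x)
    have h2 : ∑ i, (∑' k, dsp l z k t * Sd l c i k x) ^ 2 ≤
        ∑ _i : Fin N, (∑' k, d k) ^ 2 * t ^ (-1 : ℝ) :=
      Finset.sum_le_sum fun i _ => sqb _ (b2 x i)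
    rw [Finset.sum_const, Finset.card_univ, Fintype.card_fin, nsmul_eq_mul] at h2
    calc (∑' k, (z k t).re * Sn l c k x) ^ 2 + ∑ i, (∑' k, dsp l z k t * Sd l c i k x) ^ 2
        ≤ (∑' k, d k) ^ 2 * t ^ (-1 : ℝ) + (N : ℝ) * ((∑' k, d k) ^ 2 * t ^ (-1 : ℝ)) :=
          add_le_add h1 h2
      _ = ((N : ℝ) + 1) * (∑' k, d k) ^ 2 * t ^ (-1 : ℝ) := by ring
  have h5 := norm_setIntegral_le_of_norm_le_const (μ := volume) (s := Box l) (box_vol l)
    (fun x _ => b3 x)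
  calc ∫ x in Box l, ((∑' k, (z k t).re * Sn l c k x) ^ 2 +
        ∑ i, (∑' k, dsp l z k t * Sd l c i k x) ^ 2)
      ≤ ‖∫ x in Box l, ((∑' k, (z k t).re * Sn l c k x) ^ 2 +
        ∑ i, (∑' k, dsp l z k t * Sd l c i k x) ^ 2)‖ := Real.le_norm_self _
    _ ≤ ((N : ℝ) + 1) * (∑' k, d k) ^ 2 * t ^ (-1 : ℝ) * volume.real (Box l) := h5
    _ = ((N : ℝ) + 1) * (∑' k, d k) ^ 2 * volume.real (Box l) * t ^ (-1 : ℝ) := by ring

end

end Pool.Agent.BOX.H44
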